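import Pool.Agent.TF.Stmts

/-! # TF squad: rows AL1 and CAL -/

set_option autoImplicit false

namespace Pool.Agent.TF.H60

theorem al1 : Al1Stmt := by
  intro G _ _ _ n F k j
  have hi : ∀ x ∈ F.D k ∩ F.D j, F.a k x + F.b j x = F.a j x + F.b k x ∧
      F.a k x - F.a j x = F.b k x - F.b j x := by
    intro x hx
    rw [Finset.mem_inter] at hx
    have h1 := F.sub k x hx.1
    have h2 := F.sub j x hx.2
    have h3 : F.a k x - F.b k x = F.a j x - F.b j x := by rw [h1, h2]
    constructor
    · rw [sub_eq_sub_iff_add_eq_add] at h3
      exact h3
    · rw [sub_eq_sub_iff_add_eq_add] at h3 ⊢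
      rw [h3, add_comm]
  have hii : ∀ x ∈ F.D k ∩ F.D j, ∀ y ∈ F.D k ∩ F.D j, F.w true k j x = F.w true k j y →
      F.a k x - F.b k y ∈ F.D k ∩ F.D j ∧ F.a k (F.a k x - F.b k y) = F.a k x ∧
      F.b k (F.a k x - F.b k y) = F.b k y ∧ F.a j (F.a k x - F.b k y) = F.a j y ∧
      F.b j (F.a k x - F.b k y) = F.b j x := by
    intro x hx y hy hw
    have hy1 := (hi y hy).1
    rw [Finset.mem_inter] at hx hy
    have hw' : F.a k x + F.b j x = F.a k y + F.b j y := hw
    have hu : F.a k x - F.b k y = F.a j y - F.b j x := by
      rw [sub_eq_sub_iff_add_eq_add, hw', hy1]
    refine ⟨Finset.mem_inter.mpr ⟨F.mixD k x y hx.1 hy.1, ?_⟩, F.mixa k x y hx.1 hy.1,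
      F.mixb k x y hx.1 hy.1, ?_, ?_⟩
    · rw [hu]; exact F.mixD j y x hy.2 hx.2
    · rw [hu]; exact F.mixa j y x hy.2 hx.2
    · rw [hu]; exact F.mixb j y x hy.2 hx.2
  have hiii : ∀ x ∈ F.D k ∩ F.D j, ∀ y ∈ F.D k ∩ F.D j, F.w false k j x = F.w false k j y →
      F.a k x - F.b k y ∈ F.D k ∩ F.D j ∧ F.a k (F.a k x - F.b k y) = F.a k x ∧
      F.b k (F.a k x - F.b k y) = F.b k y ∧ F.a j (F.a k x - F.b k y) = F.a j x ∧
      F.b j (F.a k x - F.b k y) = F.b j y := by
    intro x hx y hy hw
    have hy2 := (hi y hy).2
    rw [Finset.mem_inter] at hx hy
    have hw' : F.a k x - F.a j x = F.a k y - F.a j y := hw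
    have hu : F.a k x - F.b k y = F.a j x - F.b j y := by
      rw [hy2, sub_eq_sub_iff_add_eq_add] at hw'
      rw [sub_eq_sub_iff_add_eq_add, hw', add_comm]
    refine ⟨Finset.mem_inter.mpr ⟨F.mixD k x y hx.1 hy.1, ?_⟩, F.mixa k x y hx.1 hy.1,
      F.mixb k x y hx.1 hy.1, ?_, ?_⟩
    · rw [hu]; exact F.mixD j x y hx.2 hy.2
    · rw [hu]; exact F.mixa j x y hx.2 hy.2
    · rw [hu]; exact F.mixb j x y hx.2 hy.2
  refine ⟨hi, hii, hiii, ?_⟩
  intro x hx y hy hw1 hw2
  obtain ⟨-, -, -, e1, e2⟩ := hii x hx y hy hw1
  obtain ⟨-, -, -, e3, e4⟩ := hiii x hx y hy hw2
  have ha : F.a j x = F.a j y := e3.symm.trans e1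
  have hb : F.b j x = F.b j y := e2.symm.trans e4
  rw [Finset.mem_inter] at hx hy
  rw [← F.sub j x hx.2, ← F.sub j y hy.2, ha, hb]

/-- a 16-cube -/
structure Cube {G : Type} [AddCommGroup G] [Fintype G] [DecidableEq G] {n : ℕ} (F : Fam G n)
    (k j : Fin n) (v : Bool → Bool → Bool → Bool → G) : Prop where
  mem : ∀ p q r s, v p q r s ∈ F.D k ∩ F.D j
  hp : ∀ q r s, F.b k (v true q r s) = F.b k (v false q r s) ∧
    F.b j (v true q r s) = F.b j (v false q r s)
  hq : ∀ p r s, F.b k (v p true r s) = F.b k (v p false r s) ∧
    F.a j (v p true r s) = F.a j (v p false r s)
  hr : ∀ p q s, F.a k (v p q true s) = F.a k (v p q false s) ∧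
    F.b j (v p q true s) = F.b j (v p q false s)
  hs : ∀ p q r, F.a k (v p q r true) = F.a k (v p q r false) ∧
    F.a j (v p q r true) = F.a j (v p q r false)

section
variable {G : Type} [AddCommGroup G] [Fintype G] [DecidableEq G] {n : ℕ} {F : Fam G n}
  {k j : Fin n} {v : Bool → Bool → Bool → Bool → G}

theorem Cube.subk (h : Cube F k j v) (p q r s : Bool) :
    F.a k (v p q r s) - F.b k (v p q r s) = v p q r s :=
  F.sub k _ (Finset.mem_inter.mp (h.mem p q r s)).1

theorem Cube.subj (h : Cube F k j v) (p q r s : Bool) :
    F.a j (v p q r s) - F.b j (v p q r s) = v p q r s :=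
  F.sub j _ (Finset.mem_inter.mp (h.mem p q r s)).2

theorem Cube.ak (h : Cube F k j v) (p q r s : Bool) :
    F.a k (v p q r s) = F.a k (v p q false false) := by
  cases r <;> cases s
  · rfl
  · exact (h.hs p q false).1
  · exact (h.hr p q false).1
  · exact (h.hs p q true).1.trans (h.hr p q false).1

theorem Cube.bk (h : Cube F k j v) (p q r s : Bool) :
    F.b k (v p q r s) = F.b k (v false false r s) := by
  cases p <;> cases q
  · rfl
  · exact (h.hq false r s).1
  · exact (h.hp false r s).1
  · exact (h.hp true r s).1.trans (h.hq false r s).1

theorem Cube.aj (h : Cube F k j v) (p q r s : Bool) :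
    F.a j (v p q r s) = F.a j (v p false r false) := by
  cases q <;> cases s
  · rfl
  · exact (h.hs p false r).2
  · exact (h.hq p r false).2
  · exact (h.hs p true r).2.trans (h.hq p r false).2

theorem Cube.bj (h : Cube F k j v) (p q r s : Bool) :
    F.b j (v p q r s) = F.b j (v false q false s) := by
  cases p <;> cases r
  · rfl
  · exact (h.hr false q s).2
  · exact (h.hp q false s).2
  · exact (h.hr true q s).2.trans (h.hp q false s).2

/-- `m_j(x,x0)` -/
theorem Cube.e_pr (h : Cube F k j v) : F.a j (v true true true true) - F.b j (v false false false false)
    = v true false true false := by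
  rw [← h.subj true false true false, h.aj true true true true, h.bj true false true false]

theorem Cube.e_qs (h : Cube F k j v) : F.a j (v false false false false) - F.b j (v true true true true)
    = v false true false true := by
  rw [← h.subj false true false true, h.aj false true false true, h.bj true true true true]

theorem Cube.e_pq (h : Cube F k j v) : F.a k (v true true true true) - F.b k (v false false false false)
    = v true true false false := by
  rw [← h.subk true true false false, h.ak true true true true, h.bk true true false false]

theorem Cube.e_rs (h : Cube F k j v) : F.a k (v false false false false) - F.b k (v true true true true)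
    = v false false true true := by
  rw [← h.subk false false true true, h.ak false false true true, h.bk true true true true]

theorem Cube.e_p (h : Cube F k j v) : F.a j (v true true false false) - F.b j (v false false false false)
    = v true false false false := by
  rw [← h.subj true false false false, h.aj true true false false, h.bj true false false false]

theorem Cube.e_r (h : Cube F k j v) : F.a j (v false false true true) - F.b j (v false false false false)
    = v false false true false := by
  rw [← h.subj false false true false, h.aj false false true true, h.bj false false true false]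

theorem Cube.add_ak (h : Cube F k j v) : F.a k (v true true false false)
    = F.a k (v true false false false) + F.a k (v false true false false)
      - F.a k (v false false false false) := by
  have e : ∀ p q r s, F.a k (v p q r s) = F.a j (v p q r s) - F.b j (v p q r s) + F.b k (v p q r s) := by
    intro p q r s
    rw [h.subj]
    exact sub_eq_iff_eq_add.mp (h.subk p q r s)
  rw [e true true, e true false, e false true, e false false]
  rw [h.bk true true false false, h.bk true false false false, h.bk false true false false,
    h.aj true true false false, h.bj true true false false, h.bj true false false false,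
    h.aj false true false false]
  abel

theorem Cube.add_bk (h : Cube F k j v) : F.b k (v false false true true)
    = F.b k (v false false true false) + F.b k (v false false false true)
      - F.b k (v false false false false) := by
  have e : ∀ p q r s, F.b k (v p q r s) = F.b j (v p q r s) - F.a j (v p q r s) + F.a k (v p q r s) := by
    intro p q r s
    have h1 := h.subj p q r s
    have h2 := h.subk p q r s
    have h3 : F.b j (v p q r s) - F.a j (v p q r s)
        = -(F.a j (v p q r s) - F.b j (v p q r s)) := (neg_sub _ _).symm
    rw [h1] at h3
    have h4 := sub_eq_iff_eq_add.mp h2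
    rw [h3, h4, neg_add_cancel_left]
  rw [e false false true true, e false false true false, e false false false true,
    e false false false false]
  rw [h.ak false false true true, h.ak false false true false, h.ak false false false true,
    h.aj false false true true, h.bj false false true true, h.bj false false true false,
    h.aj false false false true]
  abel

theorem Cube.ext (h : Cube F k j v) :
    F.Ext k j (v false false false false) (v true true true true) := by
  refine ⟨?_, ?_, ?_, ?_⟩
  · rw [h.e_pr, h.e_qs, h.ak true true true true, h.add_ak, h.ak true false true false,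
      h.ak false true false true]
  · rw [h.e_pr, h.e_qs, h.bk true true true true, h.add_bk, h.bk true false true false,
      h.bk false true false true]
  · rw [h.e_pr, h.e_pq, h.e_p, h.ak true false true false]
  · rw [h.e_pr, h.e_rs, h.e_r, h.bk true false true false]

theorem Cube.det (h : Cube F k j v) {v' : Bool → Bool → Bool → Bool → G} (h' : Cube F k j v')
    (h0 : v false false false false = v' false false false false)
    (h1 : v true true true true = v' true true true true) : v = v' := by
  have epq : v true true false false = v' true true false false := by
    rw [← h.e_pq, ← h'.e_pq, h0, h1]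
  have ers : v false false true true = v' false false true true := by
    rw [← h.e_rs, ← h'.e_rs, h0, h1]
  have ep : v true false false false = v' true false false false := by
    rw [← h.e_p, ← h'.e_p, epq, h0]
  have er : v false false true false = v' false false true false := by
    rw [← h.e_r, ← h'.e_r, ers, h0]
  have ha : ∀ p q, F.a k (v p q false false) = F.a k (v' p q false false) := by
    intro p q
    cases p <;> cases q
    · rw [h0]
    · have e1 := h.add_ak
      have e2 := h'.add_ak
      rw [epq, ep, h0] at e1
      rw [e2] at e1
      have e3 : F.a k (v' true false false false) + F.a k (v' false true false false)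
          = F.a k (v' true false false false) + F.a k (v false true false false) :=
        sub_left_injective e1
      exact (add_left_cancel e3).symm
    · rw [ep]
    · rw [epq]
  have hb : ∀ r s, F.b k (v false false r s) = F.b k (v' false false r s) := by
    intro r s
    cases r <;> cases s
    · rw [h0]
    · have e1 := h.add_bk
      have e2 := h'.add_bk
      rw [ers, er, h0] at e1
      rw [e2] at e1
      have e3 : F.b k (v' false false true false) + F.b k (v' false false false true)
          = F.b k (v' false false true false) + F.b k (v false false false true) :=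
        sub_left_injective e1
      exact (add_left_cancel e3).symm
    · rw [er]
    · rw [ers]
  funext p q r s
  rw [← h.subk p q r s, ← h'.subk p q r s, h.ak, h.bk, h'.ak, h'.bk, ha, hb]

end

/-- 2-faces -/
theorem face {G : Type} [AddCommGroup G] [Fintype G] [DecidableEq G] {n : ℕ} (F : Fam G n)
    (k j : Fin n) (v : Bool → Bool → G) (hm : ∀ p q, v p q ∈ F.D k ∩ F.D j)
    (hp : ∀ q, F.b k (v true q) = F.b k (v false q) ∧ F.b j (v true q) = F.b j (v false q))
    (hq : ∀ p, F.b k (v p true) = F.b k (v p false) ∧ F.a j (v p true) = F.a j (v p false)) :
    F.a k (v true true) = F.a k (v true false) + F.a k (v false true) - F.a k (v false false) := by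
  have e : ∀ p q, F.a k (v p q) = F.a j (v p q) - F.b j (v p q) + F.b k (v p q) := by
    intro p q
    have h1 := F.sub k _ (Finset.mem_inter.mp (hm p q)).1
    have h2 := F.sub j _ (Finset.mem_inter.mp (hm p q)).2
    rw [h2]
    exact sub_eq_iff_eq_add.mp h1
  rw [e true true, e true false, e false true, e false false]
  rw [(hp true).1, (hp true).2, (hp false).1, (hp false).2, (hq true).2, (hq false).1, (hq false).2]
  abel

theorem cal : CalStmt := by
  intro G _ _ _ n F k j
  refine ⟨?_, ?_, ?_, ?_⟩
  · intro v hm hp hq
    refine ⟨(hp true).2, face F k j v hm hp hq, ?_⟩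
    have h1 := (al1 G n F k j).1 _ (hm false true)
    have h2 := (al1 G n F k j).1 _ (hm false false)
    change F.a k (v false true) + F.b j (v false true) = F.a k (v false false) + F.b j (v false false)
    rw [h1.1, h2.1, (hq false).1, (hq false).2]
  · intro v hm hp hq hr
    have hw : F.w false k j (v true false false) = F.w false k j (v false false false) := by
      have h1 := (al1 G n F k j).1 _ (hm true false false)
      have h2 := (al1 G n F k j).1 _ (hm false false false)
      change F.a k (v true false false) - F.a j (v true false false)
        = F.a k (v false false false) - F.a j (v false false false)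
      rw [h1.2, h2.2, (hp false false).1, (hp false false).2]
    have hw' : F.a j (v true false false)
        = F.a j (v false false false) + (F.a k (v true false false) - F.a k (v false false false)) := by
      have h3 : F.a k (v true false false) - F.a j (v true false false)
        = F.a k (v false false false) - F.a j (v false false false) := hw
      rw [sub_eq_sub_iff_add_eq_add] at h3
      rw [add_sub, eq_sub_iff_add_eq, add_comm (F.a j (v false false false)), h3, add_comm]
    have f1 := face F k j (fun p q => v p q false) (fun p q => hm p q false) (fun q => hp q false)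
      (fun p => hq p false)
    have f2 := face F j k (fun p r => v p false r)
      (fun p r => by rw [Finset.inter_comm]; exact hm p false r) (fun r => ⟨(hp false r).2, (hp false r).1⟩)
      (fun p => ⟨(hr p false).2, (hr p false).1⟩)
    refine ⟨?_, hw⟩
    intro p q r
    constructor
    · have e1 : F.a k (v p q r) = F.a k (v p q false) := by
        cases r
        · rfl
        · exact (hr p q).1
      rw [e1]
      cases p <;> cases q
      · simp
      · simp
      · simp
      · simp only [if_true]
        rw [f1]; abel
    · have e1 : F.a j (v p q r) = F.a j (v p false r) := by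
        cases q
        · rfl
        · exact (hq p r).2
      rw [e1]
      cases p <;> cases r
      · simp
      · simp
      · simp only [if_true, Bool.false_eq_true, if_false, add_zero]
        exact hw'
      · simp only [if_true]
        rw [f2, hw']; abel
  · intro v hm hp hq hr hs
    exact Cube.ext ⟨hm, hp, hq, hr, hs⟩
  · intro v v' hm hm' hp hq hr hs hp' hq' hr' hs' h0 h1
    exact Cube.det ⟨hm, hp, hq, hr, hs⟩ ⟨hm', hp', hq', hr', hs'⟩ h0 h1

end Pool.Agent.TF.H60
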