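import Pool.Agent.TF.Stmts

/-! # TF squad: row STA -/

set_option autoImplicit false

open scoped Pointwise

namespace Pool.Agent.TF.H60

section fam

variable {G : Type} [AddCommGroup G] [Fintype G] [DecidableEq G]

/-- the coordinates of a point of `A - B` -/
noncomputable def crd (A B : Finset G) (x : G) : G × G := by
  classical
  exact if h : ∃ p : G × G, p.1 ∈ A ∧ p.2 ∈ B ∧ p.1 - p.2 = x then Classical.choose h else (0, 0)

theorem crd_spec {A B : Finset G} {x : G} (h : ∃ p : G × G, p.1 ∈ A ∧ p.2 ∈ B ∧ p.1 - p.2 = x) :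
    (crd A B x).1 ∈ A ∧ (crd A B x).2 ∈ B ∧ (crd A B x).1 - (crd A B x).2 = x := by
  unfold crd
  rw [dif_pos h]
  exact Classical.choose_spec h

/-- direct sums -/
def Dir (A B : Finset G) : Prop :=
  ∀ a ∈ A, ∀ b ∈ B, ∀ a' ∈ A, ∀ b' ∈ B, a + b = a' + b' → a = a' ∧ b = b'

theorem crd_eq {A B : Finset G} (hd : Dir A B) {a b : G} (ha : a ∈ A) (hb : b ∈ B) :
    crd A B (a - b) = (a, b) := by
  obtain ⟨h1, h2, h3⟩ := crd_spec (A := A) (B := B) (x := a - b) ⟨(a, b), ha, hb, rfl⟩
  rw [sub_eq_sub_iff_add_eq_add] at h3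
  obtain ⟨h4, h5⟩ := hd _ h1 _ hb _ ha _ h2 h3
  exact Prod.ext h4 h5.symm

/-- difference sets -/
noncomputable def dif (A B : Finset G) : Finset G := (A ×ˢ B).image (fun p => p.1 - p.2)

omit [Fintype G] in
theorem mem_dif {A B : Finset G} {x : G} :
    x ∈ dif A B ↔ ∃ p : G × G, p.1 ∈ A ∧ p.2 ∈ B ∧ p.1 - p.2 = x := by
  unfold dif
  simp only [Finset.mem_image, Finset.mem_product]
  constructor
  · rintro ⟨p, ⟨h1, h2⟩, h3⟩; exact ⟨p, h1, h2, h3⟩
  · rintro ⟨p, h1, h2, h3⟩; exact ⟨p, ⟨h1, h2⟩, h3⟩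

omit [Fintype G] in
theorem card_dif {A B : Finset G} (hd : Dir A B) : (dif A B).card = A.card * B.card := by
  unfold dif
  rw [Finset.card_image_of_injOn, Finset.card_product]
  rintro ⟨a, b⟩ hp ⟨a', b'⟩ hp' h
  rw [Finset.mem_coe, Finset.mem_product] at hp hp'
  simp only at hp hp' h
  rw [sub_eq_sub_iff_add_eq_add] at h
  obtain ⟨h4, h5⟩ := hd _ hp.1 _ hp'.2 _ hp'.1 _ hp.2 h
  exact Prod.ext h4 h5.symm

/-- the family of difference sets -/
noncomputable def mkFam {m : ℕ} (A B : Fin m → Finset G) (hd : ∀ i, Dir (A i) (B i)) : Fam G m where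
  D k := dif (A k) (B k)
  a k x := (crd (A k) (B k) x).1
  b k x := (crd (A k) (B k) x).2
  sub := by
    intro k x hx
    exact (crd_spec (mem_dif.mp hx)).2.2
  mixD := by
    intro k x y hx hy
    rw [mem_dif]
    exact ⟨((crd (A k) (B k) x).1, (crd (A k) (B k) y).2), (crd_spec (mem_dif.mp hx)).1,
      (crd_spec (mem_dif.mp hy)).2.1, rfl⟩
  mixa := by
    intro k x y hx hy
    rw [crd_eq (hd k) (crd_spec (mem_dif.mp hx)).1 (crd_spec (mem_dif.mp hy)).2.1]
  mixb := by
    intro k x y hx hy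
    rw [crd_eq (hd k) (crd_spec (mem_dif.mp hx)).1 (crd_spec (mem_dif.mp hy)).2.1]

omit [AddCommGroup G] in
theorem sum_card_le {ι : Type} [Fintype ι] (f : ι → Finset G)
    (h : ∀ i j, i ≠ j → Disjoint (f i) (f j)) : ∑ i, (f i).card ≤ Fintype.card G := by
  classical
  rw [← Finset.card_biUnion (fun i _ j _ hij => h i j hij)]
  exact Finset.card_le_univ _

end fam

theorem card_big {ι : Type} [Fintype ι] (f : ι → ℝ) (hf : ∀ i, 0 ≤ f i) (N t : ℝ)
    (hs : ∑ i, f i ≤ N) :
    ((Finset.univ.filter (fun i => t < f i)).card : ℝ) * t ≤ N := by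
  classical
  calc ((Finset.univ.filter (fun i => t < f i)).card : ℝ) * t
      = ∑ i ∈ Finset.univ.filter (fun i => t < f i), t := by rw [Finset.sum_const, nsmul_eq_mul]
    _ ≤ ∑ i ∈ Finset.univ.filter (fun i => t < f i), f i :=
        Finset.sum_le_sum fun i hi => (Finset.mem_filter.mp hi).2.le
    _ ≤ ∑ i, f i := Finset.sum_le_sum_of_subset_of_nonneg (Finset.filter_subset _ _)
        fun i _ _ => hf i
    _ ≤ N := hs

/-- many good indices -/
theorem good {n : ℕ} (hn : 2 ≤ n) (f g : Fin n → ℝ) (hf : ∀ i, 0 ≤ f i) (hg : ∀ i, 0 ≤ g i) (N : ℝ)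
    (hN : 0 < N) (hfs : ∑ i, f i ≤ N) (hgs : ∑ i, g i ≤ N) :
    (n : ℝ) / 2 ≤ ((Finset.univ.filter (fun i => f i ≤ 4 * N / n ∧ g i ≤ 4 * N / n)).card : ℝ) := by
  classical
  have hn0 : (0 : ℝ) < n := by positivity
  have h1 := card_big f hf N (4 * N / n) hfs
  have h2 := card_big g hg N (4 * N / n) hgs
  have h3 : ((Finset.univ.filter (fun i => 4 * N / n < f i)).card : ℝ) ≤ n / 4 := by
    rw [mul_div_assoc', div_le_iff₀ hn0] at h1
    nlinarith
  have h4 : ((Finset.univ.filter (fun i => 4 * N / n < g i)).card : ℝ) ≤ n / 4 := by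
    rw [mul_div_assoc', div_le_iff₀ hn0] at h2
    nlinarith
  have h5 : (Finset.univ : Finset (Fin n)) ⊆
      (Finset.univ.filter (fun i => f i ≤ 4 * N / n ∧ g i ≤ 4 * N / n)) ∪
      ((Finset.univ.filter (fun i => 4 * N / n < f i)) ∪
      (Finset.univ.filter (fun i => 4 * N / n < g i))) := by
    intro i _
    simp only [Finset.mem_union, Finset.mem_filter, Finset.mem_univ, true_and]
    by_cases hi : f i ≤ 4 * N / n
    · by_cases hj : g i ≤ 4 * N / n
      · exact Or.inl ⟨hi, hj⟩
      · exact Or.inr (Or.inr (not_le.mp hj))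
    · exact Or.inr (Or.inl (not_le.mp hi))
  have h6 := (Finset.card_le_card h5).trans ((Finset.card_union_le _ _).trans
    (Nat.add_le_add_left (Finset.card_union_le _ _) _))
  rw [Finset.card_univ, Fintype.card_fin] at h6
  have h7 : (n : ℝ) ≤ ((Finset.univ.filter (fun i => f i ≤ 4 * N / n ∧ g i ≤ 4 * N / n)).card : ℝ) +
      (((Finset.univ.filter (fun i => 4 * N / n < f i)).card : ℝ) +
      ((Finset.univ.filter (fun i => 4 * N / n < g i)).card : ℝ)) := by exact_mod_cast h6
  linarith

/-- third moment of the degrees -/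
theorem moment {G : Type} [Fintype G] [DecidableEq G] {m : ℕ} (D : Fin m → Finset G) [Nonempty G] :
    (∑ k, ((D k).card : ℝ)) ^ 3 / (Fintype.card G : ℝ) ^ 2 ≤
      ((Finset.univ.filter (fun ω : G × (Fin 3 → Fin m) => ∀ i, ω.1 ∈ D (ω.2 i))).card : ℝ) := by
  classical
  have h1 : (Finset.univ.filter (fun ω : G × (Fin 3 → Fin m) => ∀ i, ω.1 ∈ D (ω.2 i))).card
      = ∑ x : G, (Finset.univ.filter (fun k => x ∈ D k)).card ^ 3 := by
    rw [Finset.card_eq_sum_card_fiberwise (f := Prod.fst) (t := Finset.univ)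
      (fun _ _ => Finset.mem_coe.mpr (Finset.mem_univ _))]
    refine Finset.sum_congr rfl fun x _ => ?_
    rw [← Fintype.card_piFinset_const]
    refine Finset.card_bij (fun ω _ => ω.2) ?_ ?_ ?_
    · intro ω hω
      simp only [Finset.mem_filter, Finset.mem_univ, true_and] at hω
      simp only [Fintype.mem_piFinset, Finset.mem_filter, Finset.mem_univ, true_and]
      intro i
      rw [← hω.2]
      exact hω.1 i
    · intro ω hω ω' hω' h
      simp only [Finset.mem_filter, Finset.mem_univ, true_and] at hω hω'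
      exact Prod.ext (hω.2.trans hω'.2.symm) h
    · intro κ hκ
      simp only [Fintype.mem_piFinset, Finset.mem_filter, Finset.mem_univ, true_and] at hκ
      refine ⟨(x, κ), ?_, rfl⟩
      simp only [Finset.mem_filter, Finset.mem_univ, true_and]
      exact ⟨hκ, trivial⟩
  have h2 : ∑ k, (D k).card = ∑ x : G, (Finset.univ.filter (fun k => x ∈ D k)).card := by
    simp only [Finset.card_filter]
    rw [Finset.sum_comm]
    refine Finset.sum_congr rfl fun k _ => ?_
    rw [← Finset.card_filter]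
    congr 1
    ext x
    simp
  have h3 := pow_sum_div_card_le_sum_pow (s := (Finset.univ : Finset G))
    (f := fun x => ((Finset.univ.filter (fun k => x ∈ D k)).card : ℝ)) (fun _ _ => by positivity) 2
  rw [Finset.card_univ] at h3
  have h4 : (∑ k, ((D k).card : ℝ)) = ∑ x : G, ((Finset.univ.filter (fun k => x ∈ D k)).card : ℝ) := by
    exact_mod_cast h2
  rw [h4, h1]
  push_cast
  exact h3

theorem sta (hUNI : UniStmt) : StaStmt := by
  classical
  intro ε n hε hε2 hn H _ _ _ A B hN1 hN2 hAB hdisj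
  -- sizes
  set N : ℝ := (Fintype.card H : ℝ) with hNdef
  have hn0 : (0 : ℝ) < n := by positivity
  have hn1 : (1 : ℝ) < n := by exact_mod_cast (by omega : 1 < n)
  have hNpos : 0 < N := lt_of_lt_of_le (Real.rpow_pos_of_pos hn0 _) hN1
  set l : ℝ := Real.log N with hl
  set L : ℝ := Real.log n with hL
  have hLpos : 0 < L := Real.log_pos hn1
  have hl1 : (2 - ε) * L ≤ l := by
    have := Real.log_le_log (Real.rpow_pos_of_pos hn0 _) hN1
    rwa [Real.log_rpow hn0] at this
  have hl2 : l ≤ (2 + ε) * L := by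
    have := Real.log_le_log hNpos hN2
    rwa [Real.log_rpow hn0] at this
  have hlpos : 0 < l := lt_of_lt_of_le (by nlinarith) hl1
  -- finite sets
  let Af : Fin n → Finset H := fun i => Finset.univ.filter (fun x => x ∈ A i)
  let Bf : Fin n → Finset H := fun i => Finset.univ.filter (fun x => x ∈ B i)
  have hAf : ∀ i, ((Af i : Finset H) : Set H) = A i := by intro i; ext x; simp [Af]
  have hBf : ∀ i, ((Bf i : Finset H) : Set H) = B i := by intro i; ext x; simp [Bf]
  have hAm : ∀ i x, x ∈ Af i ↔ x ∈ A i := by intro i x; simp [Af]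
  have hBm : ∀ i x, x ∈ Bf i ↔ x ∈ B i := by intro i x; simp [Bf]
  have hAc : ∀ i, (A i).ncard = (Af i).card := fun i => by rw [← hAf i, Set.ncard_coe_finset]
  have hBc : ∀ i, (B i).ncard = (Bf i).card := fun i => by rw [← hBf i, Set.ncard_coe_finset]
  have hdir : ∀ i, Dir (Af i) (Bf i) := by
    intro i
    have h1 := (hAB i).2
    have h2 : (A i + B i) = (((Af i ×ˢ Bf i).image (fun p : H × H => p.1 + p.2) : Finset H) : Set H) := by
      ext x
      rw [Set.mem_add, Finset.mem_coe, Finset.mem_image]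
      constructor
      · rintro ⟨a, ha, b, hb, hab⟩
        exact ⟨(a, b), Finset.mem_product.mpr ⟨(hAm i a).mpr ha, (hBm i b).mpr hb⟩, hab⟩
      · rintro ⟨p, hp, hab⟩
        rw [Finset.mem_product] at hp
        exact ⟨p.1, (hAm i _).mp hp.1, p.2, (hBm i _).mp hp.2, hab⟩
    rw [h2, Set.ncard_coe_finset, hAc, hBc, ← Finset.card_product, Finset.card_image_iff] at h1
    intro a ha b hb a' ha' b' hb' hab
    have h3 := h1 (Finset.mem_coe.mpr (Finset.mem_product.mpr ⟨ha, hb⟩ : (a, b) ∈ _))
      (Finset.mem_coe.mpr (Finset.mem_product.mpr ⟨ha', hb'⟩ : (a', b') ∈ _)) hab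
    exact ⟨congrArg Prod.fst h3, congrArg Prod.snd h3⟩
  have hprod : ∀ i, (n : ℝ) ^ (2 - ε) ≤ ((Af i).card : ℝ) * ((Bf i).card : ℝ) := by
    intro i
    rw [← hAc, ← hBc]
    exact (hAB i).1
  have hAne : ∀ i, (Af i).Nonempty := by
    intro i
    rw [Finset.nonempty_iff_ne_empty]
    intro h0
    have := hprod i
    rw [h0] at this
    simp only [Finset.card_empty, Nat.cast_zero, zero_mul] at this
    exact absurd this (not_le.mpr (Real.rpow_pos_of_pos hn0 _))
  have hBne : ∀ i, (Bf i).Nonempty := by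
    intro i
    rw [Finset.nonempty_iff_ne_empty]
    intro h0
    have := hprod i
    rw [h0] at this
    simp only [Finset.card_empty, Nat.cast_zero, mul_zero] at this
    exact absurd this (not_le.mpr (Real.rpow_pos_of_pos hn0 _))
  -- disjointness in elementwise form
  have hd : ∀ i j k, i ≠ k → ∀ a ∈ Af i, ∀ b ∈ Bf j, ∀ a' ∈ Af j, ∀ b' ∈ Bf k, a + b ≠ a' + b' := by
    intro i j k hik a ha b hb a' ha' b' hb' h
    have h1 := hdisj i j k hik
    rw [Set.disjoint_left] at h1
    exact h1 (Set.add_mem_add ((hAm i a).mp ha) ((hBm j b).mp hb))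
      (by rw [h]; exact Set.add_mem_add ((hAm j a').mp ha') ((hBm k b').mp hb'))
  have hAd : ∀ i k, i ≠ k → Disjoint (Af i) (Af k) := by
    intro i k hik
    rw [Finset.disjoint_left]
    intro a ha ha'
    obtain ⟨b, hb⟩ := hBne k
    exact hd i k k hik a ha b hb a ha' b hb rfl
  have hBd : ∀ i k, i ≠ k → Disjoint (Bf i) (Bf k) := by
    intro i k hik
    rw [Finset.disjoint_left]
    intro b hb hb'
    obtain ⟨a, ha⟩ := hAne i
    exact hd i i k hik a ha b hb a ha b hb' rfl
  -- good indices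
  have hgood := good hn (fun i => ((Af i).card : ℝ)) (fun i => ((Bf i).card : ℝ))
    (fun i => by positivity) (fun i => by positivity) N hNpos
    (by rw [hNdef]; exact_mod_cast sum_card_le Af hAd)
    (by rw [hNdef]; exact_mod_cast sum_card_le Bf hBd)
  set I : Finset (Fin n) := Finset.univ.filter
    (fun i => ((Af i).card : ℝ) ≤ 4 * N / n ∧ ((Bf i).card : ℝ) ≤ 4 * N / n) with hI
  let em : Fin I.card ↪o Fin n := I.orderEmbOfFin rfl
  have hemI : ∀ i, em i ∈ I := fun i => Finset.orderEmbOfFin_mem I rfl i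
  have hemA : ∀ i, ((Af (em i)).card : ℝ) ≤ 4 * N / n := fun i => (Finset.mem_filter.mp (hemI i)).2.1
  have hemB : ∀ i, ((Bf (em i)).card : ℝ) ≤ 4 * N / n := fun i => (Finset.mem_filter.mp (hemI i)).2.2
  let F : Fam H I.card := mkFam (fun i => Af (em i)) (fun i => Bf (em i)) (fun i => hdir (em i))
  have hFa : ∀ k x, x ∈ F.D k → F.a k x ∈ Af (em k) := fun k x hx => (crd_spec (mem_dif.mp hx)).1
  have hFb : ∀ k x, x ∈ F.D k → F.b k x ∈ Bf (em k) := fun k x hx => (crd_spec (mem_dif.mp hx)).2.1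
  have hFc : ∀ k, (n : ℝ) ^ (2 - ε) ≤ ((F.D k).card : ℝ) := by
    intro k
    have h1 : (F.D k).card = (Af (em k)).card * (Bf (em k)).card := card_dif (hdir (em k))
    rw [h1]
    push_cast
    exact hprod (em k)
  have hIn : (I.card : ℝ) ≤ n := by
    have := Finset.card_le_univ I
    rw [Fintype.card_fin] at this
    exact_mod_cast this
  have hIpos : (0 : ℝ) < I.card := lt_of_lt_of_le (by positivity) hgood
  -- the law
  have hNe : Nonempty H := ⟨0⟩
  set T : Finset (H × (Fin 3 → Fin I.card)) :=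
    Finset.univ.filter (fun ω => ∀ i, ω.1 ∈ F.D (ω.2 i)) with hT
  have hTc := moment F.D
  have hsum : (n : ℝ) / 2 * (n : ℝ) ^ (2 - ε) ≤ ∑ k, ((F.D k).card : ℝ) := by
    calc (n : ℝ) / 2 * (n : ℝ) ^ (2 - ε) ≤ (I.card : ℝ) * (n : ℝ) ^ (2 - ε) :=
          mul_le_mul_of_nonneg_right hgood (by positivity)
      _ = ∑ k : Fin I.card, (n : ℝ) ^ (2 - ε) := by
          rw [Finset.sum_const, Finset.card_univ, Fintype.card_fin, nsmul_eq_mul]
      _ ≤ ∑ k, ((F.D k).card : ℝ) := Finset.sum_le_sum fun k _ => hFc k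
  have hTlow : ((n : ℝ) / 2 * (n : ℝ) ^ (2 - ε)) ^ 3 / N ^ 2 ≤ (T.card : ℝ) := by
    refine le_trans ?_ hTc
    exact div_le_div_of_nonneg_right (pow_le_pow_left₀ (by positivity) hsum 3) (by positivity)
  have hTpos : 0 < (T.card : ℝ) := lt_of_lt_of_le (by positivity) hTlow
  have hTne : T.Nonempty := by
    rw [← Finset.card_pos]
    exact_mod_cast hTpos
  obtain ⟨P, hP1, hP2⟩ := hUNI (H × (Fin 3 → Fin I.card)) T hTne
  -- log estimates
  have hLl : L ≤ l / 2 + ε * l / 2 := by
    have h1 : (2 - ε) * L * (1 + ε) ≤ l * (1 + ε) := mul_le_mul_of_nonneg_right hl1 (by linarith)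
    nlinarith [mul_nonneg hLpos.le (mul_nonneg hε.le (by linarith : (0 : ℝ) ≤ 1 - ε))]
  have hLl2 : l / 2 - ε * l / 4 ≤ L := by
    have h1 : l * (1 - ε / 2) ≤ (2 + ε) * L * (1 - ε / 2) :=
      mul_le_mul_of_nonneg_right hl2 (by linarith)
    nlinarith [mul_nonneg hLpos.le (mul_nonneg hε.le hε.le)]
  have hlog2 : Real.log 2 < 1 := by
    have := Real.log_two_lt_d9; linarith
  have hlog4 : Real.log 4 ≤ 2 := by
    have : (4 : ℝ) = 2 ^ (2 : ℕ) := by norm_num
    rw [this, Real.log_pow]; push_cast; linarith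
  have hel : 0 ≤ ε * l := by positivity
  have hTlog : 5 * l / 2 - (10 * ε * l + 10) ≤ Real.log T.card := by
    have h1 := Real.log_le_log (by positivity) hTlow
    rw [Real.log_div (by positivity) (by positivity), Real.log_pow, Real.log_pow,
      Real.log_mul (by positivity) (by positivity), Real.log_div hn0.ne' (by norm_num),
      Real.log_rpow hn0] at h1
    push_cast at h1
    have h2 : (3 - ε) * (l / 2 - ε * l / 4) ≤ (3 - ε) * L :=
      mul_le_mul_of_nonneg_left hLl2 (by linarith)
    have h3 : 0 ≤ ε * (ε * l) := by positivity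
    nlinarith
  have hcard4 : ∀ c : ℝ, c ≤ 4 * N / n → 0 < c → Real.log c ≤ l / 2 + (10 * ε * l + 10) := by
    intro c hc hc0
    have h1 := Real.log_le_log hc0 hc
    rw [Real.log_div (by positivity) hn0.ne', Real.log_mul (by norm_num) hNpos.ne'] at h1
    linarith
  refine ⟨I.card, F, H × (Fin 3 → Fin I.card), inferInstance, P, Prod.fst, Prod.snd, ?_, ?_, ?_⟩
  · refine ⟨by positivity, rfl, ?_, ?_, ?_⟩
    · have h1 := Real.log_le_log hIpos hIn
      linarith
    · intro σ k
      have hDne : (F.D k).Nonempty := by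
        rw [← Finset.card_pos]
        have := lt_of_lt_of_le (Real.rpow_pos_of_pos hn0 (2 - ε)) (hFc k)
        exact_mod_cast this
      have hpos : 0 < (((F.D k).image (F.lab σ k)).card : ℝ) := by
        exact_mod_cast Finset.card_pos.mpr (hDne.image _)
      refine hcard4 _ ?_ hpos
      cases σ
      · refine le_trans ?_ (hemB k)
        have : (F.D k).image (F.lab false k) ⊆ Bf (em k) := by
          intro z hz
          obtain ⟨x, hx, rfl⟩ := Finset.mem_image.mp hz
          exact hFb k x hx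
        exact_mod_cast Finset.card_le_card this
      · refine le_trans ?_ (hemA k)
        have : (F.D k).image (F.lab true k) ⊆ Af (em k) := by
          intro z hz
          obtain ⟨x, hx, rfl⟩ := Finset.mem_image.mp hz
          exact hFa k x hx
        exact_mod_cast Finset.card_le_card this
    · intro t
      have hk : ∀ k, ∑ j, (((F.D k ∩ F.D j).image (F.w t k j)).card : ℝ) ≤ N := by
        intro k
        have h1 : ∑ j, ((F.D k ∩ F.D j).image (F.w t k j)).card ≤ Fintype.card H := by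
          refine sum_card_le _ ?_
          intro j j' hjj
          rw [Finset.disjoint_left]
          intro z hz hz'
          obtain ⟨x, hx, rfl⟩ := Finset.mem_image.mp hz
          obtain ⟨y, hy, hyx⟩ := Finset.mem_image.mp hz'
          rw [Finset.mem_inter] at hx hy
          have hne : em j ≠ em j' := fun h => hjj (em.injective h)
          have sx1 := F.sub k x hx.1
          have sx2 := F.sub j x hx.2
          have sy1 := F.sub k y hy.1
          have sy2 := F.sub j' y hy.2
          have h3 : F.a k y - F.b k y = F.a j' y - F.b j' y := by rw [sy1, sy2]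
          rw [sub_eq_sub_iff_add_eq_add] at h3
          cases t
          · -- w false
            have e1 : F.a k y - F.a j' y = F.a k x - F.a j x := hyx
            have e2 : F.b k y - F.b j' y = F.a k y - F.a j' y := by
              rw [sub_eq_sub_iff_add_eq_add, h3, add_comm]
            rw [← e2, sub_eq_sub_iff_add_eq_add] at e1
            refine hd (em j) (em k) (em j') hne _ (hFa j x hx.2) _ (hFb k y hy.1)
              _ (hFa k x hx.1) _ (hFb j' y hy.2) ?_
            rw [← e1, add_comm]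
          · -- w true
            have e1 : F.a k y + F.b j' y = F.a k x + F.b j x := hyx
            rw [h3] at e1
            exact hd (em j') (em k) (em j) hne.symm _ (hFa j' y hy.2) _ (hFb k y hy.1)
              _ (hFa k x hx.1) _ (hFb j x hx.2) e1
        calc ∑ j, (((F.D k ∩ F.D j).image (F.w t k j)).card : ℝ)
            = ((∑ j, ((F.D k ∩ F.D j).image (F.w t k j)).card : ℕ) : ℝ) := by push_cast; rfl
          _ ≤ N := by rw [hNdef]; exact_mod_cast h1
      calc ∑ k, ∑ j, (((F.D k ∩ F.D j).image (F.w t k j)).card : ℝ) ≤ ∑ k : Fin I.card, N :=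
            Finset.sum_le_sum fun k _ => hk k
        _ = (I.card : ℝ) * N := by
            rw [Finset.sum_const, Finset.card_univ, Fintype.card_fin, nsmul_eq_mul]
  · intro ω hω i
    exact (Finset.mem_filter.mp (hP1 ω hω)).2 i
  · have : (fun ω : H × (Fin 3 → Fin I.card) => (ω.1, ω.2)) = fun ω => ω := rfl
    rw [this, hP2]
    exact hTlog

end Pool.Agent.TF.H60
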